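import Pool.Agent.Results.MP_743c94_lc.Full

/-!
More problems: Ramsey's theorem for pairs and three colours, weak Koenig's lemma.
-/

namespace Pool.Agent.Y579.NG

open Pool.Agent.Results.MP_743c94_lc.Full Encodable

/-- The colour (one of three) of the pair `x < y`: colour `2` if the first bit of the code is
`true`, and otherwise the second bit. -/
def colour3 (c : ℕ → Bool) (x y : ℕ) : ℕ :=
  bif c (2 * Nat.pair x y) then 2 else (c (2 * Nat.pair x y + 1)).toNat

/-- Ramsey's theorem for pairs and three colours. -/
def RT23 : Problem where
  dom := Set.univ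
  sol := fun c => {h | {n | h n = true}.Infinite ∧
    ∃ a : ℕ, ∀ x y, x < y → h x = true → h y = true → colour3 c x y = a}

/-- Weak Koenig's lemma: the tree coded by `p` consists of the words with code in `p`. -/
def WKL : Problem where
  dom := {p | (∀ σ τ : List Bool, σ <+: τ → p (encode τ) = true → p (encode σ) = true) ∧
    ∀ n : ℕ, ∃ σ : List Bool, σ.length = n ∧ p (encode σ) = true}
  sol := fun p => {q | ∀ n, p (encode (pre q n)) = true}

/-- Three colours suffice for two copies of `LLPO`. -/
def THREE : Prop := WeihrauchReducible (prod NON (prod LLPO LLPO)) RT23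

/-- A computable infinite binary tree without computable paths. -/
def KLEENE : Prop := ∃ T : List Bool → Bool, Computable T ∧
  (∀ σ τ : List Bool, σ <+: τ → T τ = true → T σ = true) ∧
  (∀ n : ℕ, ∃ σ : List Bool, σ.length = n ∧ T σ = true) ∧
  ∀ q : ℕ → Bool, (∀ n, T (pre q n) = true) → ¬ Computable q

end Pool.Agent.Y579.NG
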