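import Pool.Agent.Y579.NG.Gen
import Pool.Agent.Y579.NG.Extra

/-!
Applications of the criterion.
-/

namespace Pool.Agent.Y579.NG

open Pool.Agent.Y579.NL (zer computable_join computable_left turing_of_computable)
open Pool.Agent.Results.MP_743c94_lc.Full Encodable

/-- Choice on `k` points: a bit `true` at the position `k * n + i` says that `i < k` is not
allowed; some point is always allowed. The answer `i` is given as the characteristic function
of `{i}`. -/
def Choice (k : ℕ) : Problem where
  dom := {r | ∃ i < k, ∀ n, r (k * n + i) = false}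
  sol := fun r => {q | ∃ i < k, q = (fun n => decide (n = i)) ∧ ∀ n, r (k * n + i) = false}

/-- The problem `LPO`; the answer `b` is given as the constant sequence with value `b`. -/
def LPO : Problem where
  dom := Set.univ
  sol := fun p => {q | ∃ b : Bool, q = (fun _ => b) ∧ (b = true ↔ ∀ n, p n = false)}

theorem non_prod {P : Problem} {z : ℕ → Bool} (N : ℕ) (hz : z ∈ P.dom) (hzc : Computable z)
    (hP : ∀ q ∈ P.sol z, ∀ q' ∈ P.sol z, ∀ s : ℕ, ∃ z' ∈ P.dom, Computable z' ∧
      (∀ i < s, z' i = z i) ∧ ∀ r ∈ P.sol z', pre r N ≠ pre q N ∧ pre r N ≠ pre q' N) :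
    ¬ WeihrauchReducible (prod NON P) RT22 := by
  have hnc : ∀ w : ℕ → Bool, ∀ q ∈ (prod NON P).sol w, ¬ Computable q := by
    intro w q hq hqc
    exact hq.1 (turing_of_computable (computable_left hqc) _)
  have hpre : ∀ r q : ℕ → Bool, pre (right r) N ≠ pre (right q) N →
      pre r (2 * N) ≠ pre q (2 * N) := by
    intro r q h heq
    apply h
    refine List.ext_getElem? fun i => ?_
    by_cases hi : i < N
    · rw [pre_getElem? _ hi, pre_getElem? _ hi]
      have h1 : (pre r (2 * N))[2 * i + 1]? = (pre q (2 * N))[2 * i + 1]? := by rw [heq]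
      rw [pre_getElem? _ (by omega), pre_getElem? _ (by omega)] at h1
      exact h1
    · rw [List.getElem?_eq_none (by rw [pre_length]; omega),
        List.getElem?_eq_none (by rw [pre_length]; omega)]
  refine criterion (R := prod NON P) (z := join zer z) (2 * N) ⟨trivial, ?_⟩
    (computable_join (Computable.const false) hzc) (hnc _) ?_
  · rw [right_join]; exact hz
  · rintro q ⟨-, hq⟩ q' ⟨-, hq'⟩ s
    rw [right_join] at hq hq'
    obtain ⟨z', h1, h2, h3, h4⟩ := hP _ hq _ hq' s
    refine ⟨join zer z', ⟨trivial, ?_⟩, computable_join (Computable.const false) h2, ?_, ?_⟩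
    · rw [right_join]; exact h1
    · intro i hi
      unfold join
      by_cases h : i % 2 = 0
      · simp [h]
      · simp only [h, if_false]
        exact h3 _ (by omega)
    · intro r hr
      refine ⟨hnc _ r hr, ?_⟩
      obtain ⟨-, hr2⟩ := hr
      rw [right_join] at hr2
      obtain ⟨h5, h6⟩ := h4 _ hr2
      exact ⟨hpre r q h5, hpre r q' h6⟩

theorem neg_choice : ¬ WeihrauchReducible (prod NON (Choice 3)) RT22 := by
  refine non_prod (P := Choice 3) (z := zer) 3 ⟨0, by norm_num, fun n => rfl⟩
    (Computable.const false) ?_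
  rintro q ⟨i, hi, rfl, -⟩ q' ⟨i', hi', rfl, -⟩ s
  obtain ⟨j, hj, hji, hji'⟩ : ∃ j < 3, j ≠ i ∧ j ≠ i' := by
    by_cases h0 : 0 ≠ i ∧ 0 ≠ i'
    · exact ⟨0, by omega, h0⟩
    · by_cases h1 : 1 ≠ i ∧ 1 ≠ i'
      · exact ⟨1, by omega, h1⟩
      · exact ⟨2, by omega, by omega, by omega⟩
  have hne : ∀ t, j ≠ t → pre (fun n => decide (n = j)) 3 ≠ pre (fun n => decide (n = t)) 3 := by
    intro t ht h
    have h1 : (pre (fun n => decide (n = j)) 3)[j]? = (pre (fun n => decide (n = t)) 3)[j]? := by
      rw [h]
    rw [pre_getElem? _ hj, pre_getElem? _ hj] at h1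
    simp [ht] at h1
  refine ⟨fun m => decide (s ≤ m ∧ ¬ m % 3 = j), ⟨j, hj, fun n => ?_⟩, ?_, fun i hi => ?_, ?_⟩
  · have : (3 * n + j) % 3 = j := by omega
    simp [this]
  · have h1 : PrimrecPred fun m : ℕ => s ≤ m :=
      PrimrecRel.comp Primrec.nat_le (Primrec.const s) Primrec.id
    have h2 : PrimrecPred fun m : ℕ => m % 3 = j :=
      PrimrecRel.comp Primrec.eq (Primrec.nat_mod.comp Primrec.id (Primrec.const 3))
        (Primrec.const j)
    exact (h1.and h2.not).decide.to_comp
  · have : ¬ s ≤ i := by omega
    simp [this, zer]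
  · rintro r ⟨t, ht, rfl, hq⟩
    have h1 := hq s
    simp only [decide_eq_false_iff_not, not_and, not_not] at h1
    have h2 := h1 (by omega)
    have : t = j := by omega
    subst this
    exact ⟨hne i hji, hne i' hji'⟩

theorem neg_llpo : ¬ WeihrauchReducible (prod NON (prod LLPO LLPO)) RT22 := by
  have hlz : left zer = zer := rfl
  have hrz : right zer = zer := rfl
  have hzd : zer ∈ LLPO.dom := fun m n hm _ => by simp [zer] at hm
  refine non_prod (P := prod LLPO LLPO) (z := zer) 2
    ⟨by rw [hlz]; exact hzd, by rw [hrz]; exact hzd⟩ (Computable.const false) ?_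
  rintro q ⟨⟨u, hu, -⟩, -⟩ q' ⟨-, ⟨v, hv, -⟩⟩ s
  have hu0 : q 0 = u := congrFun hu 0
  have hv0 : q' 1 = v := congrFun hv 0
  set a : ℕ := 2 * s + u.toNat with ha
  set b : ℕ := 2 * s + v.toNat with hb
  have hpd : ∀ t : ℕ, (fun m : ℕ => decide (m = t)) ∈ LLPO.dom := by
    intro t m n hm hn
    simp only [decide_eq_true_eq] at hm hn
    omega
  have hcc : ∀ t : ℕ, Computable (fun m : ℕ => decide (m = t)) := fun t =>
    (PrimrecRel.comp Primrec.eq Primrec.id (Primrec.const t)).decide.to_comp
  have hsol : ∀ (w : Bool) (r : ℕ → Bool),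
      r ∈ LLPO.sol (fun m => decide (m = 2 * s + w.toNat)) → r = fun _ => !w := by
    rintro w r ⟨i, rfl, hi⟩
    have h1 := hi s
    simp only [decide_eq_false_iff_not] at h1
    have : i = !w := by
      cases i <;> cases w <;> simp_all
    rw [this]
  refine ⟨join (fun m => decide (m = a)) (fun m => decide (m = b)), ⟨?_, ?_⟩,
    computable_join (hcc a) (hcc b), fun i hi => ?_, ?_⟩
  · rw [left_join]; exact hpd a
  · rw [right_join]; exact hpd b
  · unfold join
    have h1 : ¬ i / 2 = a := by omega
    have h2 : ¬ i / 2 = b := by omega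
    by_cases h : i % 2 = 0 <;> simp [h, h1, h2, zer]
  · rintro r ⟨h1, h2⟩
    rw [left_join] at h1
    rw [right_join] at h2
    have e3 : r 0 = !u := congrFun (hsol _ _ h1) 0
    have e4 : r 1 = !v := congrFun (hsol _ _ h2) 0
    have hp2 : ∀ w : ℕ → Bool, pre w 2 = [w 0, w 1] := fun w => rfl
    rw [hp2, hp2, hp2, e3, e4, hu0, hv0]
    constructor
    · intro h
      simp at h
    · intro h
      simp at h

theorem neg_lpo : ¬ WeihrauchReducible (prod NON LPO) RT22 := by
  refine non_prod (P := LPO) (z := zer) 1 trivial (Computable.const false) ?_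
  rintro q ⟨b, rfl, hb⟩ q' ⟨b', rfl, hb'⟩ s
  have h1 : b = true := hb.2 fun n => rfl
  have h2 : b' = true := hb'.2 fun n => rfl
  refine ⟨fun m => decide (m = s), trivial,
    (PrimrecRel.comp Primrec.eq Primrec.id (Primrec.const s)).decide.to_comp, fun i hi => ?_, ?_⟩
  · have : ¬ i = s := by omega
    simp [this, zer]
  · rintro r ⟨t, rfl, ht⟩
    have h3 : t = false := by
      by_contra h
      have h4 : t = true := by simpa using h
      have h5 := ht.1 h4 s
      simp at h5
    subst h1 h2 h3
    exact ⟨by simp [pre], by simp [pre]⟩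

theorem neg_wkl (hK : KLEENE) : ¬ WeihrauchReducible WKL RT22 := by
  classical
  obtain ⟨T, hT1, hT2, hT3, hT4⟩ := hK
  have hT0 : T [] = true := by
    obtain ⟨σ, hσ, h⟩ := hT3 0
    rw [List.length_eq_zero_iff] at hσ
    rw [← hσ]; exact h
  -- the trees: a predicate on words cut out of two fresh bits followed by `T`
  let tr : (List Bool → Bool) → ℕ → Bool := fun D n =>
    (decode (α := List Bool) n).elim false fun σ => decide (encode σ = n) && (T (σ.drop 2) && D σ)
  have htr : ∀ D (σ : List Bool), tr D (encode σ) = (T (σ.drop 2) && D σ) := by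
    intro D σ
    show ((decode (α := List Bool) (encode σ)).elim false fun τ =>
      decide (encode τ = encode σ) && (T (τ.drop 2) && D τ)) = _
    rw [encodek]
    simp
  have htrc : ∀ D : List Bool → Bool, Computable D → Computable (tr D) := by
    intro D hD
    have h1 : Computable fun n : ℕ => (decode (α := List Bool) n) := Computable.decode
    have h2 : Computable₂ fun (n : ℕ) (σ : List Bool) =>
        decide (encode σ = n) && (T (σ.drop 2) && D σ) := by
      have h3 : Computable fun y : ℕ × List Bool => decide (encode y.2 = y.1) :=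
        (PrimrecRel.comp Primrec.eq (Primrec.encode.comp Primrec.snd) Primrec.fst).decide.to_comp
      have h4 : Computable fun y : ℕ × List Bool => T (y.2.drop 2) :=
        (hT1.comp (Primrec.list_tail.comp (Primrec.list_tail.comp
          (Primrec.snd (α := ℕ) (β := List Bool)))).to_comp).of_eq fun y => by
            show T (y.2.tail.tail) = T (y.2.drop 2)
            rcases y.2 with _ | ⟨a, _ | ⟨b, l⟩⟩ <;> rfl
      have h5 : Computable fun y : ℕ × List Bool => D y.2 := hD.comp Computable.snd
      exact Primrec.and.to_comp.comp h3 (Primrec.and.to_comp.comp h4 h5)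
    have h6 := Computable.option_casesOn h1 (Computable.const false) h2
    refine h6.of_eq fun n => ?_
    show _ = (decode (α := List Bool) n).elim false _
    cases decode (α := List Bool) n <;> rfl
  -- paths are not computable
  have hnc : ∀ D : List Bool → Bool, ∀ q ∈ WKL.sol (tr D), ¬ Computable q := by
    intro D q hq hqc
    refine hT4 (fun i => q (i + 2)) (fun n => ?_) (hqc.comp
      (Primrec.succ.comp Primrec.succ).to_comp)
    have h1 : tr D (encode (pre q (n + 2))) = true := hq (n + 2)
    rw [htr, Bool.and_eq_true] at h1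
    have h2 : (pre q (n + 2)).drop 2 = pre (fun i => q (i + 2)) n := by
      refine List.ext_getElem? fun i => ?_
      rw [List.getElem?_drop]
      by_cases hi : i < n
      · rw [pre_getElem? _ hi, pre_getElem? _ (by omega)]
        congr 2
        omega
      · rw [List.getElem?_eq_none (by rw [pre_length]; omega),
          List.getElem?_eq_none (by rw [pre_length]; omega)]
    rw [← h2]; exact h1.1
  -- membership in the domain
  have hdom : ∀ (D : List Bool → Bool) (u : List Bool), u.length = 2 →
      (∀ σ τ : List Bool, σ <+: τ → D τ = true → D σ = true) →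
      (∀ σ : List Bool, σ.take 2 = u ∨ σ.length < 2 → D σ = true) → tr D ∈ WKL.dom := by
    intro D u hu hD1 hD2
    refine ⟨fun σ τ hστ hτ => ?_, fun n => ?_⟩
    · rw [htr, Bool.and_eq_true] at hτ ⊢
      exact ⟨hT2 _ _ (List.IsPrefix.drop hστ 2) hτ.1, hD1 _ _ hστ hτ.2⟩
    · obtain ⟨τ, hτ, hτT⟩ := hT3 n
      refine ⟨(u ++ τ).take n, by simp [hτ], ?_⟩
      rw [htr, Bool.and_eq_true]
      constructor
      · refine hT2 _ τ ?_ hτT
        have h1 : ((u ++ τ).take n).drop 2 <+: (u ++ τ).drop 2 :=
          List.IsPrefix.drop (List.take_prefix n _) 2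
        have h2 : (u ++ τ).drop 2 = τ := by
          rw [← hu]; simp
        rw [h2] at h1
        exact h1
      · refine hD2 _ ?_
        by_cases hn : 2 ≤ n
        · left
          rw [List.take_take, Nat.min_eq_left hn]
          rw [← hu]; simp
        · right
          rw [List.length_take]
          omega
  refine criterion (R := WKL) (z := tr fun _ => true) 2
    (hdom _ [false, false] rfl (fun _ _ _ _ => rfl) fun _ _ => rfl)
    (htrc _ (Computable.const true)) (hnc _) ?_
  intro q _ q' _ s
  set v := pre q 2 with hv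
  set v' := pre q' 2 with hv'
  obtain ⟨u, hu, huv, huv'⟩ : ∃ u : List Bool, u.length = 2 ∧ u ≠ v ∧ u ≠ v' := by
    by_contra hcon
    push Not at hcon
    have h1 := hcon [false, false] rfl
    have h2 := hcon [false, true] rfl
    have h3 := hcon [true, false] rfl
    by_cases e1 : [false, false] = v
    · have e2 : [false, true] ≠ v := by rw [← e1]; simp
      have e3 : [true, false] ≠ v := by rw [← e1]; simp
      have e4 := h2 e2
      have e5 := h3 e3
      rw [← e4] at e5
      simp at e5
    · have e6 := h1 e1
      have e2 : [false, true] = v := by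
        by_contra h
        have := h2 h
        rw [← e6] at this
        simp at this
      have e3 : [true, false] ≠ v := by rw [← e2]; simp
      have e7 := h3 e3
      rw [← e6] at e7
      simp at e7
  set D : List Bool → Bool := fun σ =>
    !(decide (s + 2 ≤ σ.length) && (decide (σ.take 2 = v) || decide (σ.take 2 = v'))) with hD
  have hDt : ∀ σ, D σ = true ↔ ¬ (s + 2 ≤ σ.length ∧ (σ.take 2 = v ∨ σ.take 2 = v')) := by
    intro σ
    rw [hD]
    simp only [Bool.not_eq_true', Bool.and_eq_false_iff, Bool.or_eq_false_iff,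
      decide_eq_false_iff_not]
    tauto
  have hDc : Computable D := by
    have h1 : Primrec fun σ : List Bool => decide (s + 2 ≤ σ.length) :=
      (PrimrecRel.comp Primrec.nat_le (Primrec.const (s + 2)) Primrec.list_length).decide
    have h2 : ∀ w : List Bool, Primrec fun σ : List Bool => decide (σ.take 2 = w) := fun w =>
      (PrimrecRel.comp Primrec.eq (Primrec.list_take.comp (Primrec.const 2) Primrec.id)
        (Primrec.const w)).decide
    exact (Primrec.not.comp (Primrec.and.comp h1 (Primrec.or.comp (h2 v) (h2 v')))).to_comp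
  refine ⟨tr D, hdom D u hu ?_ ?_, htrc D hDc, ?_, fun r hr => ⟨hnc D r hr, ?_⟩⟩
  · intro σ τ hστ hτ
    rw [hDt] at hτ ⊢
    rintro ⟨h1, h2⟩
    apply hτ
    have h3 := hστ.length_le
    obtain ⟨ρ, rfl⟩ := hστ
    have h4 : (σ ++ ρ).take 2 = σ.take 2 := by
      rw [List.take_append_of_le_length (by omega)]
    rw [h4]
    exact ⟨by omega, h2⟩
  · intro σ hσ
    rw [hDt]
    rintro ⟨h1, h2⟩
    rcases hσ with hσ | hσ
    · rw [hσ] at h2
      rcases h2 with h2 | h2
      · exact huv h2
      · exact huv' h2
    · omega
  · intro i hi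
    show (decode (α := List Bool) i).elim false _ = (decode (α := List Bool) i).elim false _
    rcases decode (α := List Bool) i with _ | σ
    · rfl
    · show (decide (encode σ = i) && (T (σ.drop 2) && D σ)) =
        (decide (encode σ = i) && (T (σ.drop 2) && true))
      by_cases he : encode σ = i
      · have h1 : σ.length ≤ encode σ := Encodable.length_le_encode σ
        have h2 : D σ = true := by
          rw [hDt]
          rintro ⟨h3, -⟩
          omega
        rw [h2]
      · simp [he]
  · have h1 : tr D (encode (pre r (s + 2))) = true := hr (s + 2)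
    rw [htr, Bool.and_eq_true] at h1
    have h2 := (hDt _).1 h1.2
    rw [pre_take r (by omega : 2 ≤ s + 2), pre_length] at h2
    push Not at h2
    exact h2 le_rfl

end Pool.Agent.Y579.NG
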