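import Pool.Agent.Y579.NG.Defs
import Pool.Agent.Y500.NL.Re

/-!
Enumerability (adapted from the file of helper500).
-/

namespace Pool.Agent.Y579.NG

open Pool.Agent.Y579.NL Pool.Agent.Results.MP_743c94_lc.Full
open Pool.Agent.Helper446 Pool.Agent.Y500.NL

/-- The relation to be projected. -/
def RJ (n j : ℕ) (c : ℕ → Bool) (Cm : List Bool → Prop) (L : List Bool)
    (b : List Bool × Bool) : Prop :=
  Cm b.1 ∧
    (∀ x < b.1.length, ∀ y < b.1.length, b.1[x]? ≠ some true ∨ b.1[y]? ≠ some true ∨ y ≤ x ∨
      c (Nat.pair x y) = b.2) ∧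
    ∀ x < b.1.length, b.1[x]? ≠ some true ∨ L[n * x + j]? = some b.2

theorem rj_iff (n j : ℕ) (c : ℕ → Bool) (Cm : List Bool → Prop) (L : List Bool) :
    (∃ b, RJ n j c Cm L b) ↔ BadJ n j c Cm L := by
  have hlen : ∀ (σ : List Bool) (x : ℕ), σ[x]? = some true → x < σ.length := by
    intro σ x h
    by_contra hcon
    rw [List.getElem?_eq_none (by omega)] at h
    cases h
  constructor
  · rintro ⟨⟨σ, e⟩, h1, h2, h6⟩
    refine ⟨σ, e, h1, ?_, ?_⟩
    · intro x hx y hy hxy
      have hx' : σ[x]? = some true := hx
      have hy' : σ[y]? = some true := hy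
      rcases h2 x (hlen σ x hx') y (hlen σ y hy') with h | h | h | h
      · exact absurd hx' h
      · exact absurd hy' h
      · exact absurd h (by omega)
      · exact h
    · intro x hx
      have hx' : σ[x]? = some true := hx
      rcases h6 x (hlen σ x hx') with h | h
      · exact absurd hx' h
      · exact h
  · rintro ⟨σ, e, h1, h2, h6⟩
    refine ⟨(σ, e), h1, ?_, ?_⟩
    · intro x _ y _
      by_cases hx : σ[x]? = some true
      · by_cases hy : σ[y]? = some true
        · by_cases hxy : x < y
          · exact Or.inr (Or.inr (Or.inr (h2 x hx y hy hxy)))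
          · exact Or.inr (Or.inr (Or.inl (by omega)))
        · exact Or.inr (Or.inl hy)
      · exact Or.inl hx
    · intro x _
      by_cases hx : σ[x]? = some true
      · exact Or.inr (h6 x hx)
      · exact Or.inl hx

theorem badJ_re (n j : ℕ) {c : ℕ → Bool} {Cm : List Bool → Prop} (hc : Computable c)
    (hCm : REPred Cm) : REPred (BadJ n j c Cm) := by
  have key : REPred fun L => ∃ b, RJ n j c Cm L b := by
    refine RE.ex (p := fun L b => RJ n j c Cm L b) ?_
    unfold RJ
    have hb : Computable fun x : List Bool × (List Bool × Bool) => x.2 := Computable.snd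
    have hσ : Computable fun x : List Bool × (List Bool × Bool) => x.2.1 :=
      Computable.fst.comp hb
    have he : Computable fun x : List Bool × (List Bool × Bool) => x.2.2 :=
      Computable.snd.comp hb
    have hlen : Computable fun x : List Bool × (List Bool × Bool) => x.2.1.length :=
      Computable.list_length.comp hσ
    refine RE.and (RE.comp hCm hσ) (RE.and ?_ ?_)
    · refine RE.all_lt (p := fun (a : List Bool × (List Bool × Bool)) x =>
        ∀ y < a.2.1.length, a.2.1[x]? ≠ some true ∨ a.2.1[y]? ≠ some true ∨ y ≤ x ∨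
          c (Nat.pair x y) = a.2.2) ?_ hlen
      refine RE.all_lt (p := fun (a : (List Bool × (List Bool × Bool)) × ℕ) y =>
        a.1.2.1[a.2]? ≠ some true ∨ a.1.2.1[y]? ≠ some true ∨ y ≤ a.2 ∨
          c (Nat.pair a.2 y) = a.1.2.2) ?_ (hlen.comp Computable.fst)
      have hx : Computable fun a : ((List Bool × (List Bool × Bool)) × ℕ) × ℕ => a.1.2 :=
        Computable.snd.comp Computable.fst
      have hy : Computable fun a : ((List Bool × (List Bool × Bool)) × ℕ) × ℕ => a.2 :=
        Computable.snd
      have hσ2 : Computable fun a : ((List Bool × (List Bool × Bool)) × ℕ) × ℕ =>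
          a.1.1.2.1 := hσ.comp (Computable.fst.comp Computable.fst)
      have he2 : Computable fun a : ((List Bool × (List Bool × Bool)) × ℕ) × ℕ =>
          a.1.1.2.2 := he.comp (Computable.fst.comp Computable.fst)
      refine RE.or (RE.ne (Computable.list_getElem?.comp hσ2 hx) (Computable.const (some true)))
        (RE.or (RE.ne (Computable.list_getElem?.comp hσ2 hy) (Computable.const (some true)))
          (RE.or (RE.le hy hx) (RE.eq ?_ he2)))
      exact hc.comp (Primrec₂.natPair.to_comp.comp hx hy)
    · refine RE.all_lt (p := fun (a : List Bool × (List Bool × Bool)) x =>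
        a.2.1[x]? ≠ some true ∨ a.1[n * x + j]? = some a.2.2) ?_ hlen
      have hx : Computable fun a : (List Bool × (List Bool × Bool)) × ℕ => a.2 :=
        Computable.snd
      have h3x : Computable fun a : (List Bool × (List Bool × Bool)) × ℕ => n * a.2 :=
        c_mul (Computable.const n) hx
      have hL : Computable fun a : (List Bool × (List Bool × Bool)) × ℕ => a.1.1 :=
        Computable.fst.comp Computable.fst
      have he1 : Computable fun a : (List Bool × (List Bool × Bool)) × ℕ =>
          some a.1.2.2 := Computable.option_some.comp (he.comp Computable.fst)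
      refine RE.or (RE.ne (Computable.list_getElem?.comp (hσ.comp Computable.fst) hx)
        (Computable.const (some true))) (RE.eq ?_ he1)
      exact Computable.list_getElem?.comp hL (c_add h3x (Computable.const j))
  exact key.of_eq fun L => rj_iff n j c Cm L

theorem fin_ex {α : Type} [Primcodable α] (p : ℕ → α → Prop) (k : ℕ)
    (hp : ∀ j < k, REPred (p j)) : REPred fun a => ∃ j < k, p j a := by
  induction k with
  | zero => exact (RE.const False).of_eq fun a => by simp
  | succ k ih =>
    refine (RE.or (ih fun j hj => hp j (by omega)) (hp k (by omega))).of_eq fun a => ?_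
    constructor
    · rintro (⟨j, hj, h⟩ | h)
      · exact ⟨j, by omega, h⟩
      · exact ⟨k, by omega, h⟩
    · rintro ⟨j, hj, h⟩
      rcases Nat.lt_succ_iff_lt_or_eq.1 hj with h1 | h1
      · exact Or.inl ⟨j, h1, h⟩
      · subst h1; exact Or.inr h

theorem bad_re (n : ℕ) {c : ℕ → Bool} {Cm : ℕ → List Bool → Prop} (hc : Computable c)
    (hCm : ∀ j < n, REPred (Cm j)) : REPred (Bad n c Cm) :=
  fin_ex (fun j => BadJ n j c (Cm j)) n fun j hj => badJ_re n j hc (hCm j hj)

/-- The first `N` bits of the second component of the output are known and form the word `v`. -/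
def CommitV (Φ : List Bool → ℕ → Option Bool) (N : ℕ) (p : ℕ → Bool) (v σ : List Bool) : Prop :=
  ∀ n < N, ∃ k < 2 * σ.length + 1, Φ ((mix p σ).take k) (2 * n + 1) = some (v.getD n false)

theorem commitV_re {Φ : List Bool → ℕ → Option Bool} (N : ℕ) {p : ℕ → Bool}
    (hΦ : Computable₂ Φ) (hp : Computable p) (v : List Bool) : REPred (CommitV Φ N p v) := by
  unfold CommitV
  refine RE.all_lt (p := fun (σ : List Bool) n => ∃ k < 2 * σ.length + 1,
    Φ ((mix p σ).take k) (2 * n + 1) = some (v.getD n false)) ?_ (Computable.const N)
  refine RE.exN (p := fun (x : List Bool × ℕ) k => k < 2 * x.1.length + 1 ∧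
    Φ ((mix p x.1).take k) (2 * x.2 + 1) = some (v.getD x.2 false)) ?_
  have hσ : Computable fun x : (List Bool × ℕ) × ℕ => x.1.1 := Computable.fst.comp Computable.fst
  refine RE.and (RE.lt Computable.snd ?_) (RE.eq ?_ ?_)
  · exact c_add (c_mul (Computable.const 2) (Computable.list_length.comp hσ)) (Computable.const 1)
  · refine hΦ.comp ?_ ?_
    · exact Primrec.list_take.to_comp.comp Computable.snd ((mix_comp hp).comp hσ)
    · exact c_add (c_mul (Computable.const 2) (Computable.snd.comp Computable.fst))
        (Computable.const 1)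
  · exact Computable.option_some.comp ((Primrec.list_getD false).to_comp.comp
      (Computable.const v) (Computable.snd.comp Computable.fst))

end Pool.Agent.Y579.NG
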