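import Pool.Agent.Y579.NG.Iso
import Pool.Agent.Y579.NG.Re
import Pool.Agent.Y579.NL.Main
import Pool.Agent.Y662.NL.Gre

/-!
The combinatorial core with `n` patterns.
-/

namespace Pool.Agent.Y579.NG

open Pool.Agent.Y579.NL (Hom supp U lm lm_spec ev_ge ev_atTop infinite_of_ev mem_supp_pre)
open Pool.Agent.Results.MP_743c94_lc.Full
open Pool.Agent.Y662.NL

lemma good_iff {n : ℕ} {c : ℕ → Bool} {Cm : ℕ → List Bool → Prop} {W : ℕ → Bool} :
    Good n c Cm W ↔ ∀ k, ¬ Bad n c Cm (pre W k) := by
  constructor
  · rintro hg k ⟨j, hj, σ, e, h1, h2, h6⟩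
    obtain ⟨x, hx, hx'⟩ := hg j hj σ e h1 h2
    exact hx' (pre_getElem?_some (h6 x hx)).symm
  · intro hb j hj σ e h1 h2
    by_contra hcon
    push Not at hcon
    refine hb (n * σ.length + n) ⟨j, hj, σ, e, h1, h2, fun x hx => ?_⟩
    have hx' : σ[x]? = some true := hx
    have hlt : x < σ.length := (List.getElem?_eq_some_iff.1 hx').1
    have h3 : n * x ≤ n * σ.length := Nat.mul_le_mul_left n hlt.le
    rw [pre_getElem? W (by omega), hcon x hx]

lemma vec_length (n : ℕ) (W : ℕ → Bool) (x : ℕ) : (vec n W x).length = n := by simp [vec]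

lemma vec_getD {n : ℕ} (W : ℕ → Bool) (x : ℕ) {j : ℕ} (hj : j < n) :
    (vec n W x).getD j false = W (n * x + j) := by
  unfold vec
  rw [List.getD_eq_getElem _ _ (by simpa using hj)]
  simp

lemma comp_mem (l : List (List Bool)) : Computable fun w : List Bool => decide (w ∈ l) := by
  induction l with
  | nil => exact (Computable.const false).of_eq fun w => by simp
  | cons a l ih =>
    have h2 : Computable fun w : List Bool => decide (w = a) :=
      (PrimrecRel.comp Primrec.eq Primrec.id (Primrec.const a)).decide.to_comp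
    refine (Computable.cond h2 (Computable.const true) ih).of_eq fun w => ?_
    by_cases h : w = a <;> simp [h]

theorem no_hom {n : ℕ} {c : ℕ → Bool} {Cm : ℕ → List Bool → Prop} {W : ℕ → Bool}
    (hg : Good n c Cm W) {V : Set (List Bool)} {K : List Bool → ℕ → Prop}
    (hcom : ∀ (h : ℕ → Bool) (e : Bool), {n | h n = true}.Infinite →
      Hom c e {n | h n = true} → ∃ v ∈ V, ∃ k, ∀ j < n, K v j → Cm j (pre h k))
    {m : List Bool → Bool} {e : Bool}
    (hm : ∀ w : List Bool, w.length = n → m w = e → ∀ v ∈ V, ∃ j < n, K v j ∧ w.getD j false = e)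
    {S : Set ℕ} (hS : S.Infinite) (hH : Hom c e S) (hmS : ∀ x ∈ S, m (vec n W x) = e) :
    False := by
  classical
  have key : ∀ w : List Bool, w.length = n → ¬ {x | x ∈ S ∧ vec n W x = w}.Infinite := by
    intro w hw hinf
    set T := {x | x ∈ S ∧ vec n W x = w} with hT
    set h : ℕ → Bool := fun n => decide (n ∈ T) with hh
    have hset : {n | h n = true} = T := by
      ext n; simp [hh]
    have hHT : Hom c e {n | h n = true} := by
      rw [hset]
      intro x hx y hy hxy
      exact hH x hx.1 y hy.1 hxy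
    obtain ⟨v, hv, k, hk⟩ := hcom h e (by rw [hset]; exact hinf) hHT
    have hsub : ∀ x ∈ supp (pre h k), x ∈ T := fun x hx => by
      have := (mem_supp_pre hx).2
      simpa [hh] using this
    obtain ⟨x0, hx0⟩ := hinf.nonempty
    have hme : m w = e := by
      rw [← hx0.2]; exact hmS x0 hx0.1
    obtain ⟨j, hj, hKj, hwj⟩ := hm w hw hme v hv
    obtain ⟨x, hx, hx'⟩ := hg j hj (pre h k) e (hk j hj hKj) (fun x hx y hy hxy =>
      hH x (hsub x hx).1 y (hsub y hy).1 hxy)
    apply hx'
    rw [← vec_getD W x hj, (hsub x hx).2, hwj]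
  have hfin : {w : List Bool | w.length = n}.Finite := List.finite_length_eq Bool n
  have hun : (⋃ w ∈ {w : List Bool | w.length = n}, {x | x ∈ S ∧ vec n W x = w}).Finite :=
    hfin.biUnion fun w hw => Set.not_infinite.1 (key w hw)
  refine hS (hun.subset fun x hx => ?_)
  rw [Set.mem_iUnion₂]
  exact ⟨vec n W x, vec_length n W x, hx, rfl⟩

theorem core {n : ℕ} {c : ℕ → Bool} {Cm : ℕ → List Bool → Prop} (hc : Computable c)
    (hRE : ∀ j < n, REPred (Cm j)) {V : Set (List Bool)} {K : List Bool → ℕ → Prop}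
    (hVK : ∀ v ∈ V, ∀ v' ∈ V, ∃ j < n, K v j ∧ K v' j)
    (hnc : ∀ (h : ℕ → Bool) (e : Bool), Computable h → {n | h n = true}.Infinite →
      ¬ Hom c e {n | h n = true})
    (hcom : ∀ (h : ℕ → Bool) (e : Bool), {n | h n = true}.Infinite →
      Hom c e {n | h n = true} → ∃ v ∈ V, ∃ k, ∀ j < n, K v j → Cm j (pre h k))
    (hW : ∃ W, Good n c Cm W) : False := by
  classical
  -- the majority
  set Q : List Bool → Prop := fun w => ∃ v ∈ V, ∀ j < n, K v j → w.getD j false = true with hQ
  have hfin : {w : List Bool | w.length = n ∧ Q w}.Finite :=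
    (List.finite_length_eq Bool n).subset fun w hw => hw.1
  set TL : List (List Bool) := hfin.toFinset.toList with hTL
  set m : List Bool → Bool := fun w => decide (w ∈ TL) with hm0
  have hTLm : ∀ w : List Bool, w ∈ TL ↔ w.length = n ∧ Q w := by
    intro w
    rw [hTL, Finset.mem_toList, Set.Finite.mem_toFinset]
    rfl
  have hmc : Computable m := comp_mem TL
  have hm : ∀ (e : Bool) (w : List Bool), w.length = n → m w = e →
      ∀ v ∈ V, ∃ j < n, K v j ∧ w.getD j false = e := by
    intro e w hw hme v hv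
    cases e with
    | true =>
      have h1 : w ∈ TL := by simpa [hm0] using hme
      obtain ⟨-, v0, hv0, h2⟩ := (hTLm w).1 h1
      obtain ⟨j, hj, h3, h4⟩ := hVK v hv v0 hv0
      exact ⟨j, hj, h3, h2 j hj h4⟩
    | false =>
      have h1 : w ∉ TL := by simpa [hm0] using hme
      have h2 : ¬ Q w := fun h => h1 ((hTLm w).2 ⟨hw, h⟩)
      by_contra hcon
      push Not at hcon
      refine h2 ⟨v, hv, fun j hj hK => ?_⟩
      have := hcon j hj hK
      simpa using this
  obtain ⟨W0, hW0⟩ := hW
  obtain ⟨W, hW1, hcmp⟩ := isolate (bad_re n hc hRE) n hmc ⟨W0, good_iff.1 hW0⟩ (by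
    intro W W' h1 h2
    have g1 := good_iff.2 h1
    have g2 := good_iff.2 h2
    by_contra hinf
    have hinf' : {x | A n m W x ≠ A n m W' x}.Infinite := hinf
    have hcov : {x | A n m W x ≠ A n m W' x} ⊆ {x | A n m W x = true ∧ A n m W' x = false} ∪
        {x | A n m W x = false ∧ A n m W' x = true} := by
      intro x hx
      have hx' : A n m W x ≠ A n m W' x := hx
      rcases h3 : A n m W x with _ | _ <;> rcases h4 : A n m W' x with _ | _
      · rw [h3, h4] at hx'; exact absurd rfl hx'
      · exact Or.inr ⟨h3, h4⟩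
      · exact Or.inl ⟨h3, h4⟩
      · rw [h3, h4] at hx'; exact absurd rfl hx'
    have step : ∀ b : Bool, ¬ {x | A n m W x = b ∧ A n m W' x = !b}.Infinite := by
      intro b hb
      obtain ⟨e, S, hS1, hS2, hS3⟩ := t_RAMSEY c hb
      by_cases he : e = b
      · subst he
        exact no_hom g1 hcom (hm e) hS2 hS3 fun x hx => (hS1 hx).1
      · have he' : (!b) = e := by
          cases e <;> cases b <;> simp_all
        refine no_hom g2 hcom (hm e) hS2 hS3 fun x hx => ?_
        have := (hS1 hx).2
        rw [he'] at this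
        exact this
    have f1 := Set.not_infinite.1 (step true)
    have f2 := Set.not_infinite.1 (step false)
    exact hinf' ((f1.union f2).subset hcov))
  have g := good_iff.2 hW1
  have hex : ∃ e : Bool, {x | A n m W x = e}.Infinite := by
    by_contra hcon
    push Not at hcon
    have f1 := hcon true
    have f2 := hcon false
    refine Set.infinite_univ (α := ℕ) ((f1.union f2).subset fun x _ => ?_)
    rcases h : A n m W x with _ | _
    · exact Or.inr h
    · exact Or.inl h
  obtain ⟨e, he⟩ := hex
  set X : ℕ → Bool := fun x => decide (A n m W x = e) with hX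
  have hXset : {n | X n = true} = {x | A n m W x = e} := by
    ext x; simp [hX]
  have hXc : Computable X := by
    have h1 : Computable fun x => (decide (A n m W x = e)) :=
      (Primrec.dom_finite (fun b : Bool => decide (b = e))).to_comp.comp hcmp
    exact h1
  obtain ⟨h, h1, h2, h3, h4⟩ := t_GREEDY hc hXc (by rw [hXset]; exact he) e (by
    rintro ⟨S, hS1, hS2, hS3⟩
    rw [hXset] at hS2
    exact no_hom g hcom (hm e) hS1 hS3 fun x hx => hS2 hx)
  exact hnc h _ h1 h2 h4

end Pool.Agent.Y579.NG
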