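import Pool.Agent.Y579.NL.Defs

/-!
The general form with `n` patterns.
-/

namespace Pool.Agent.Y579.NG

open Pool.Agent.Y579.NL Pool.Agent.Results.MP_743c94_lc.Full

/-- The condition on families of `n` patterns. -/
def Good (n : ℕ) (c : ℕ → Bool) (Cm : ℕ → List Bool → Prop) (W : ℕ → Bool) : Prop :=
  ∀ j < n, ∀ (σ : List Bool) (e : Bool), Cm j σ → Hom c e (supp σ) →
    ∃ x ∈ supp σ, W (n * x + j) ≠ e

/-- The finite words that violate the condition for one pattern. -/
def BadJ (n j : ℕ) (c : ℕ → Bool) (Cm : List Bool → Prop) (L : List Bool) : Prop :=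
  ∃ (σ : List Bool) (e : Bool), Cm σ ∧ Hom c e (supp σ) ∧
    ∀ x ∈ supp σ, L[n * x + j]? = some e

/-- The finite words that violate the condition. -/
def Bad (n : ℕ) (c : ℕ → Bool) (Cm : ℕ → List Bool → Prop) (L : List Bool) : Prop :=
  ∃ j < n, BadJ n j c (Cm j) L

/-- The vector of the patterns at `x`. -/
def vec (n : ℕ) (W : ℕ → Bool) (x : ℕ) : List Bool := (List.range n).map fun j => W (n * x + j)

end Pool.Agent.Y579.NG
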