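import Pool.Agent.Y579.NG.Core

/-!
The general criterion for an arbitrary problem.
-/

namespace Pool.Agent.Y579.NG

open Pool.Agent.Y579.NL (Hom supp U lm lm_spec ev_ge ev_atTop infinite_of_ev mix mix_take
  join_pre_congr computable_join comp_all)
open Pool.Agent.Results.MP_743c94_lc.Full
open Pool.Agent.Y662.NL Pool.Agent.Helper446 Pool.Agent.Y500.NL

/-- The first `N` bits of the output are known and form the word `v`. -/
def CommitW (Φ : List Bool → ℕ → Option Bool) (N : ℕ) (p : ℕ → Bool) (v σ : List Bool) : Prop :=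
  ∀ n < N, ∃ k < 2 * σ.length + 1, Φ ((mix p σ).take k) n = some (v.getD n false)

theorem commitW_re {Φ : List Bool → ℕ → Option Bool} (N : ℕ) {p : ℕ → Bool}
    (hΦ : Computable₂ Φ) (hp : Computable p) (v : List Bool) : REPred (CommitW Φ N p v) := by
  unfold CommitW
  refine RE.all_lt (p := fun (σ : List Bool) n => ∃ k < 2 * σ.length + 1,
    Φ ((mix p σ).take k) n = some (v.getD n false)) ?_ (Computable.const N)
  refine RE.exN (p := fun (x : List Bool × ℕ) k => k < 2 * x.1.length + 1 ∧
    Φ ((mix p x.1).take k) x.2 = some (v.getD x.2 false)) ?_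
  have hσ : Computable fun x : (List Bool × ℕ) × ℕ => x.1.1 := Computable.fst.comp Computable.fst
  refine RE.and (RE.lt Computable.snd ?_) (RE.eq ?_ ?_)
  · exact c_add (c_mul (Computable.const 2) (Computable.list_length.comp hσ)) (Computable.const 1)
  · refine hΦ.comp ?_ ?_
    · exact Primrec.list_take.to_comp.comp Computable.snd ((mix_comp hp).comp hσ)
    · exact Computable.snd.comp Computable.fst
  · exact Computable.option_some.comp ((Primrec.list_getD false).to_comp.comp
      (Computable.const v) (Computable.snd.comp Computable.fst))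

/-- What the reduction gives for one instance: a colouring, such that each homogeneous set gives
a solution. -/
def SolR (ΦH : List Bool → ℕ → Option Bool) (R : Problem) (p c : ℕ → Bool) : Prop :=
  ∀ (h : ℕ → Bool) (e : Bool), {n | h n = true}.Infinite → Hom c e {n | h n = true} →
    ∃ out : ℕ → Bool, Computes ΦH (join p h) out ∧ out ∈ R.sol p

lemma gact1 {R : Problem} {H K : (ℕ → Bool) →. (ℕ → Bool)}
    {ΦH ΦK : List Bool → ℕ → Option Bool}
    (hH : ∀ p q, q ∈ H p → Computes ΦH p q) (hK : ∀ p q, q ∈ K p → Computes ΦK p q)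
    (hred : ∀ G : (ℕ → Bool) →. (ℕ → Bool), IsRealizer G RT22 →
      IsRealizer (fun p => (K p).bind fun x => (G x).bind fun y => H (join p y)) R)
    {p : ℕ → Bool} (hpd : p ∈ R.dom) :
    ∃ c, Computes ΦK p c ∧ SolR ΦH R p c := by
  classical
  have hram : ∀ c : ℕ → Bool, ∃ h : ℕ → Bool, h ∈ RT22.sol c := by
    intro c
    obtain ⟨e, S, -, hS2, hS3⟩ := t_RAMSEY c (Set.infinite_univ (α := ℕ))
    refine ⟨fun n => decide (n ∈ S), ?_, e, fun x y hxy hx hy => ?_⟩
    · have : {n | (decide (n ∈ S)) = true} = S := by ext n; simp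
      rw [this]; exact hS2
    · exact hS3 x (by simpa using hx) y (by simpa using hy) hxy
  choose Q hQs using hram
  have hG0 : IsRealizer (fun c => Part.some (Q c)) RT22 := fun c _ =>
    ⟨Q c, Part.mem_some _, hQs c⟩
  obtain ⟨q, hq, -⟩ := hred _ hG0 p hpd
  obtain ⟨c, hc, -⟩ := Part.mem_bind_iff.1 hq
  refine ⟨c, hK _ _ hc, ?_⟩
  intro h e hinf hhom
  have hG : IsRealizer (fun c' => Part.some (if c' = c then h else Q c')) RT22 := by
    intro c' _
    refine ⟨_, Part.mem_some _, ?_⟩
    by_cases hcc : c' = c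
    · subst hcc
      simp only [if_true]
      exact ⟨hinf, e, fun x y hxy hx hy => hhom x hx y hy hxy⟩
    · simp only [hcc, if_false]
      exact hQs c'
  obtain ⟨out, hout, hsol⟩ := hred _ hG p hpd
  obtain ⟨c1, hc1, h1⟩ := Part.mem_bind_iff.1 hout
  have hcc : c1 = c := Part.mem_unique hc1 hc
  subst hcc
  obtain ⟨y, hy, h2⟩ := Part.mem_bind_iff.1 h1
  rw [Part.mem_some_iff] at hy
  simp only [if_true] at hy
  subst hy
  exact ⟨out, hH _ _ h2, hsol⟩

lemma gact2 {R : Problem} {ΦH : List Bool → ℕ → Option Bool} (hΦH : Computable₂ ΦH)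
    {p c : ℕ → Bool} (hp : Computable p) (hn : ∀ q ∈ R.sol p, ¬ Computable q)
    (hs : SolR ΦH R p c) (h : ℕ → Bool) (e : Bool)
    (hh : Computable h) (hinf : {n | h n = true}.Infinite) : ¬ Hom c e {n | h n = true} := by
  intro hhom
  obtain ⟨out, h1, h2⟩ := hs h e hinf hhom
  exact hn out h2 (t_COMPUT hΦH (computable_join hp hh) h1)

/-- A committed finite set that survives the pattern has an infinite homogeneous extension, and
hence fixes the answer. -/
lemma gsurv {R : Problem} {ΦH : List Bool → ℕ → Option Bool}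
    (hΦH : Computable₂ ΦH) {z z' c0 c' : ℕ → Bool} (hz' : Computable z') (hc' : Computable c')
    (hn : ∀ q ∈ R.sol z', ¬ Computable q)
    (hs : SolR ΦH R z' c') {σ : List Bool} {s : ℕ}
    (hag : ∀ i < s, z' i = z i) (hsσ : σ.length ≤ s) {e : Bool} (hom : Hom c0 e (supp σ))
    (hcc : ∀ x < σ.length, ∀ y < σ.length, c' (Nat.pair x y) = c0 (Nat.pair x y))
    (hlim : ∀ x ∈ supp σ, ∀ᶠ y in (U : Filter ℕ), c' (Nat.pair x y) = e) :
    ∃ out : ℕ → Bool, (∀ n k b, k < 2 * σ.length + 1 →
      ΦH ((mix z σ).take k) n = some b → b = out n) ∧ out ∈ R.sol z' := by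
  classical
  have hsl : ∀ x ∈ supp σ, x < σ.length := fun x hx =>
    (List.getElem?_eq_some_iff.1 (show σ[x]? = some true from hx)).1
  set l : List ℕ := (List.range σ.length).filter (fun x => decide (x ∈ supp σ)) with hl
  have hml : ∀ x, x ∈ l ↔ x ∈ supp σ := by
    intro x
    rw [hl, List.mem_filter, List.mem_range]
    constructor
    · rintro ⟨-, h⟩; simpa using h
    · intro h; exact ⟨hsl x h, by simpa using h⟩
  set X : ℕ → Bool := fun y => bif decide (σ.length ≤ y) then
    decide (∀ x ∈ l, c' (Nat.pair x y) = e) else false with hX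
  have hXt : ∀ y, X y = true ↔ σ.length ≤ y ∧ ∀ x ∈ supp σ, c' (Nat.pair x y) = e := by
    intro y
    by_cases h : σ.length ≤ y
    · simp only [hX, h, decide_true, cond_true, decide_eq_true_eq, true_and]
      exact ⟨fun h1 x hx => h1 x ((hml x).2 hx), fun h1 x hx => h1 x ((hml x).1 hx)⟩
    · simp [hX, h]
  have hXc : Computable X :=
    Computable.cond (PrimrecRel.comp Primrec.nat_le (Primrec.const σ.length)
      Primrec.id).decide.to_comp (comp_all c' hc' e l) (Computable.const false)
  have hXinf : {n | X n = true}.Infinite := by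
    have h1 : ∀ᶠ y in (U : Filter ℕ), ∀ x ∈ l.toFinset, c' (Nat.pair x y) = e := by
      rw [Filter.eventually_all_finset]
      intro x hx
      exact hlim x ((hml x).1 (List.mem_toFinset.1 hx))
    have h2 : ∀ᶠ y in (U : Filter ℕ), X y = true := by
      filter_upwards [h1, ev_ge σ.length] with y hy1 hy2
      exact (hXt y).2 ⟨hy2, fun x hx => hy1 x (List.mem_toFinset.2 ((hml x).2 hx))⟩
    exact infinite_of_ev h2
  have hex : ∃ S : Set ℕ, S.Infinite ∧ S ⊆ {n | X n = true} ∧ Hom c' e S := by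
    by_contra hno
    obtain ⟨h, h1, h2, -, h4⟩ := t_GREEDY hc' hXc hXinf e hno
    exact gact2 hΦH hz' hn hs h _ h1 h2 h4
  obtain ⟨S, hS1, hS2, hS3⟩ := hex
  have hSX : ∀ y ∈ S, σ.length ≤ y ∧ ∀ x ∈ supp σ, c' (Nat.pair x y) = e := fun y hy =>
    (hXt y).1 (hS2 hy)
  set h : ℕ → Bool := fun n => decide (n ∈ supp σ ∨ n ∈ S) with hh
  have hht : ∀ n, h n = true ↔ (n ∈ supp σ ∨ n ∈ S) := fun n => by simp [hh]
  have hinf : {n | h n = true}.Infinite := hS1.mono fun n hn => (hht n).2 (Or.inr hn)
  have hhom : Hom c' e {n | h n = true} := by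
    intro x hx y hy hxy
    rcases (hht x).1 hx with hx | hx <;> rcases (hht y).1 hy with hy | hy
    · rw [hcc x (hsl x hx) y (hsl y hy)]
      exact hom x hx y hy hxy
    · exact (hSX y hy).2 x hx
    · have h1 := (hSX x hx).1
      have h2 := hsl y hy
      omega
    · exact hS3 x hx y hy hxy
  have hpre : pre h σ.length = σ := by
    refine List.ext_getElem? fun n => ?_
    by_cases hn : n < σ.length
    · rw [pre_getElem? h hn]
      have h1 : σ[n]? = some (σ[n]) := List.getElem?_eq_getElem hn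
      rw [h1]
      congr 1
      rcases hb : σ[n] with _ | _
      · rw [hh]
        simp only [decide_eq_false_iff_not, not_or]
        refine ⟨fun hm => ?_, fun hm => ?_⟩
        · have hm' : σ[n]? = some true := hm
          rw [h1, hb] at hm'
          simp at hm'
        · have := (hSX n hm).1
          omega
      · rw [hht]
        left
        show σ[n]? = some true
        rw [h1, hb]
    · rw [List.getElem?_eq_none (by simpa using hn), List.getElem?_eq_none (by omega)]
  obtain ⟨out, h1, h3⟩ := hs h e hinf hhom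
  refine ⟨out, ?_, h3⟩
  intro n k b hk hb
  refine (h1 n).2 k b ?_
  rw [← hb]
  congr 1
  conv_rhs => rw [← hpre]
  rw [mix_take _ _ (by omega)]
  exact join_pre_congr (K := σ.length) (fun m hm => hag _ (by omega)) (by omega)

/-- **The criterion.** -/
theorem criterion {R : Problem} {z : ℕ → Bool} (N : ℕ) (hz : z ∈ R.dom) (hzc : Computable z)
    (hzn : ∀ q ∈ R.sol z, ¬ Computable q)
    (hP : ∀ q ∈ R.sol z, ∀ q' ∈ R.sol z, ∀ s : ℕ, ∃ z' ∈ R.dom, Computable z' ∧
      (∀ i < s, z' i = z i) ∧ ∀ r ∈ R.sol z', ¬ Computable r ∧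
        pre r N ≠ pre q N ∧ pre r N ≠ pre q' N) :
    ¬ WeihrauchReducible R RT22 := by
  classical
  rintro ⟨H, K, ⟨ΦH, hΦH, hH⟩, ⟨ΦK, hΦK, hK⟩, hred⟩
  have f1 := fun (p : ℕ → Bool) (hp : p ∈ R.dom) =>
    gact1 (ΦH := ΦH) (ΦK := ΦK) hH hK hred (p := p) hp
  obtain ⟨c0, hc0, hs0⟩ := f1 z hz
  have hc0c : Computable c0 := t_COMPUT hΦK hzc hc0
  -- the answers to `z` and the pairs of answers
  set V : Set (List Bool) := {v | ∃ q ∈ R.sol z, v = pre q N} with hV
  have hVlen : ∀ v ∈ V, v.length = N := by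
    rintro v ⟨q, -, rfl⟩
    exact pre_length q N
  have hVfin : V.Finite := (List.finite_length_eq Bool N).subset hVlen
  set ps : List (List Bool × List Bool) := (hVfin.prod hVfin).toFinset.toList with hps
  have hpsm : ∀ pr : List Bool × List Bool, pr ∈ ps ↔ pr.1 ∈ V ∧ pr.2 ∈ V := by
    intro pr
    rw [hps, Finset.mem_toList, Set.Finite.mem_toFinset]
    exact Set.mem_prod
  set n : ℕ := ps.length with hn
  have hget : ∀ j, j < n → ∃ pr : List Bool × List Bool, ps[j]? = some pr ∧ pr.1 ∈ V ∧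
      pr.2 ∈ V := by
    intro j hj
    have h1 : ps[j]? = some (ps[j]'hj) := List.getElem?_eq_getElem hj
    exact ⟨_, h1, (hpsm _).1 (List.getElem_mem hj)⟩
  choose! pr hpr1 hpr2 hpr3 using hget
  have hZ : ∀ j, j < n → ∀ s : ℕ, ∃ z' : ℕ → Bool, z' ∈ R.dom ∧ Computable z' ∧
      (∀ i < s, z' i = z i) ∧ (∀ r ∈ R.sol z', ¬ Computable r) ∧
        ∀ r ∈ R.sol z', pre r N ≠ (pr j).1 ∧ pre r N ≠ (pr j).2 := by
    intro j hj s
    obtain ⟨q, hq, e1⟩ := hpr2 j hj
    obtain ⟨q', hq', e2⟩ := hpr3 j hj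
    obtain ⟨z', h1, h2, h3, h4⟩ := hP q hq q' hq' s
    exact ⟨z', h1, h2, h3, fun r hr => (h4 r hr).1, by
      rw [e1, e2]; exact fun r hr => (h4 r hr).2⟩
  choose! Z hZ1 hZ2 hZ3 hZ5 hZ4 using hZ
  have f2 : ∀ j, j < n → ∀ s, ∃ c, Computes ΦK (Z j s) c ∧ SolR ΦH R (Z j s) c :=
    fun j hj s => f1 _ (hZ1 j hj s)
  choose! C hC1 hC2 using f2
  have hCc : ∀ j, j < n → ∀ s, Computable (C j s) := fun j hj s =>
    t_COMPUT hΦK (hZ2 j hj s) (hC1 j hj s)
  have hconv : ∀ j, j < n → ∀ m, ∀ᶠ s in Filter.atTop, C j s m = c0 m := by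
    intro j hj m
    obtain ⟨k, hk⟩ := (hc0 m).1
    refine Filter.eventually_atTop.2 ⟨k, fun s hs => ?_⟩
    have h1 : pre (Z j s) k = pre z k := by
      unfold pre
      refine List.map_congr_left fun i hi => hZ3 j hj s i ?_
      rw [List.mem_range] at hi
      omega
    exact ((hC1 j hj s m).2 k (c0 m) (by rw [h1]; exact hk)).symm
  refine core (n := n) (c := c0)
    (Cm := fun j σ => CommitW ΦH N z (pr j).1 σ ∨
      CommitW ΦH N z (pr j).2 σ) hc0c ?_ (V := V)
    (K := fun v j => v = (pr j).1 ∨ v = (pr j).2) ?_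
    (fun h e hh hinf => gact2 hΦH hzc hzn hs0 h e hh hinf) ?_ ?_
  · intro j _
    exact Helper446.RE.or (commitW_re N hΦH hzc _) (commitW_re N hΦH hzc _)
  · intro v hv v' hv'
    have h1 : (v, v') ∈ ps := (hpsm _).2 ⟨hv, hv'⟩
    obtain ⟨j, hj, h2⟩ := List.getElem_of_mem h1
    have h3 : ps[j]? = some (v, v') := by
      rw [List.getElem?_eq_getElem hj, h2]
    have h4 := hpr1 j hj
    rw [h3] at h4
    have h5 : (v, v') = pr j := Option.some.inj h4
    exact ⟨j, hj, Or.inl (by rw [← h5]), Or.inr (by rw [← h5])⟩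
  · intro h e hinf hhom
    obtain ⟨out, h1, h3⟩ := hs0 h e hinf hhom
    choose kk hkk using fun n => (h1 n).1
    have hcom : CommitW ΦH N z (pre out N) (pre h ((Finset.range N).sup kk)) := by
      intro i hi
      have hle := Finset.le_sup (f := kk) (Finset.mem_range.2 hi)
      refine ⟨kk i, ?_, ?_⟩
      · rw [pre_length]
        omega
      · rw [mix_take _ _ (by omega), hkk i, pre_getD _ hi]
    refine ⟨pre out N, ⟨_, h3, rfl⟩, (Finset.range N).sup kk, fun j _ hK => ?_⟩
    rcases hK with hK | hK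
    · left; rw [← hK]; exact hcom
    · right; rw [← hK]; exact hcom
  · set D : ℕ → ℕ → ℕ → Bool := fun j s x => lm fun y => C j s (Nat.pair x y) with hD
    refine ⟨fun i => lm fun s => D (i % n) s (i / n), ?_⟩
    intro j hj σ e hCm hHom
    by_contra hcon
    push Not at hcon
    have hWj : ∀ x, ∀ᶠ s in (U : Filter ℕ),
        D j s x = lm fun s => D ((n * x + j) % n) s ((n * x + j) / n) := by
      intro x
      have e1 : (n * x + j) % n = j := by
        rw [Nat.mul_add_mod]; exact Nat.mod_eq_of_lt hj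
      have e2 : (n * x + j) / n = x := by
        rw [Nat.mul_add_div (by omega), Nat.div_eq_of_lt hj, Nat.add_zero]
      rw [e1, e2]
      exact lm_spec _
    have hsl : ∀ x ∈ supp σ, x < σ.length := fun x hx =>
      (List.getElem?_eq_some_iff.1 (show σ[x]? = some true from hx)).1
    have h1 : ∀ᶠ s in (U : Filter ℕ), ∀ x ∈ Finset.range σ.length,
        x ∈ supp σ → D j s x = e := by
      rw [Filter.eventually_all_finset]
      intro x _
      by_cases hxs : x ∈ supp σ
      · filter_upwards [hWj x] with s hs _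
        rw [hs]; exact hcon x hxs
      · exact Filter.Eventually.of_forall fun s h => absurd h hxs
    have h2 : ∀ᶠ s in (U : Filter ℕ), ∀ x ∈ Finset.range σ.length,
        ∀ y ∈ Finset.range σ.length, C j s (Nat.pair x y) = c0 (Nat.pair x y) := by
      rw [Filter.eventually_all_finset]
      intro x _
      rw [Filter.eventually_all_finset]
      intro y _
      exact ev_atTop (hconv j hj _)
    obtain ⟨s, ⟨hs1, hs2⟩, hsge⟩ := ((h1.and h2).and (ev_ge σ.length)).exists
    obtain ⟨o1, p1, q1⟩ := gsurv hΦH (z := z) (hZ2 j hj s) (hCc j hj s) (hZ5 j hj s)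
      (hC2 j hj s) (hZ3 j hj s) hsge hHom
      (fun x hx y hy => hs2 x (Finset.mem_range.2 hx) y (Finset.mem_range.2 hy))
      (fun x hx => by
        have := lm_spec fun y => C j s (Nat.pair x y)
        filter_upwards [this] with y hy
        rw [hy]; exact hs1 x (Finset.mem_range.2 (hsl x hx)) hx)
    have hword : ∀ v : List Bool, v.length = N → CommitW ΦH N z v σ → pre o1 N = v := by
      intro v hv hcv
      refine List.ext_getElem? fun i => ?_
      by_cases hi : i < N
      · rw [pre_getElem? _ hi]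
        obtain ⟨k, hk, hk'⟩ := hcv i hi
        have e1 := p1 i k _ hk hk'
        have e2 : v[i]? = some (v.getD i false) := by
          rw [List.getD_eq_getElem _ _ (by omega), List.getElem?_eq_getElem (by omega)]
        rw [e2, e1]
      · rw [List.getElem?_eq_none (by rw [pre_length]; omega),
          List.getElem?_eq_none (by omega)]
    obtain ⟨n1, n2⟩ := hZ4 j hj s _ q1
    rcases hCm with hCm | hCm
    · exact n1 (hword _ (hVlen _ (hpr2 j hj)) hCm)
    · exact n2 (hword _ (hVlen _ (hpr3 j hj)) hCm)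

end Pool.Agent.Y579.NG
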