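import Pool.Agent.Y579.NG.Defs
import Pool.Agent.Y592.NL.Iso

/-!
An isolated member of a `Π⁰₁` class, `a` bits for each number (adapted from the file of
helper592).
-/

namespace Pool.Agent.Y579.NG

open Pool.Agent.Y579.NL Pool.Agent.Results.MP_743c94_lc.Full
open Pool.Agent.Y592.NL (B B_ex pow_prim B_prim pre_prim pre_congr eq_of_pre)
open Pool.Agent

/-- the values -/
def A (a : ℕ) (m : List Bool → Bool) (W : ℕ → Bool) (x : ℕ) : Bool := m (vec a W x)

theorem A_congr {a : ℕ} {m : List Bool → Bool} {W W' : ℕ → Bool} {x n : ℕ}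
    (h : ∀ i < n, W i = W' i) (hx : a * x + a ≤ n) : A a m W x = A a m W' x := by
  unfold A vec
  congr 1
  refine List.map_congr_left fun j hj => ?_
  rw [List.mem_range] at hj
  exact h _ (by omega)

/-- step 1 -/
theorem isolated {Bad : List Bool → Prop} (a : ℕ) (m : List Bool → Bool)
    (hne : ∃ W : ℕ → Bool, ∀ n, ¬ Bad (pre W n))
    (hfin : ∀ W W' : ℕ → Bool, (∀ n, ¬ Bad (pre W n)) → (∀ n, ¬ Bad (pre W' n)) →
      {x | A a m W x ≠ A a m W' x}.Finite) :
    ∃ (W : ℕ → Bool) (n : ℕ), (∀ n, ¬ Bad (pre W n)) ∧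
      ∀ W' : ℕ → Bool, (∀ n, ¬ Bad (pre W' n)) → (∀ i < n, W' i = W i) →
        ∀ x, A a m W' x = A a m W x := by
  by_contra hcon
  push Not at hcon
  obtain ⟨W0, hW0⟩ := hne
  have hstep : ∀ S : {W : ℕ → Bool // ∀ n, ¬ Bad (pre W n)} × ℕ,
      ∃ S' : {W : ℕ → Bool // ∀ n, ¬ Bad (pre W n)} × ℕ, (∀ i < S.2, S'.1.1 i = S.1.1 i) ∧
        S.2 < S'.2 ∧ ∃ x, S.2 < a * x + a ∧ a * x + a ≤ S'.2 ∧
          A a m S'.1.1 x ≠ A a m W0 x := by
    rintro ⟨⟨W, hW⟩, n⟩
    obtain ⟨W', hW', hag, x, hx⟩ := hcon W n hW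
    have hnx : n < a * x + a := by
      by_contra h
      exact hx (A_congr hag (by omega))
    by_cases h : A a m W x = A a m W0 x
    · refine ⟨⟨⟨W', hW'⟩, a * x + a⟩, hag, hnx, x, hnx, le_refl _, ?_⟩
      show A a m W' x ≠ A a m W0 x
      rw [← h]
      exact hx
    · exact ⟨⟨⟨W, hW⟩, a * x + a⟩, fun _ _ => rfl, hnx, x, hnx, le_refl _, h⟩
  choose F hF1 hF2 hF3 using hstep
  let S : ℕ → {W : ℕ → Bool // ∀ n, ¬ Bad (pre W n)} × ℕ := fun k =>
    Nat.rec (⟨W0, hW0⟩, 0) (fun _ s => F s) k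
  have hS : ∀ k, S (k + 1) = F (S k) := fun k => rfl
  have hk : ∀ k, k ≤ (S k).2 := by
    intro k
    induction k with
    | zero => exact Nat.zero_le _
    | succ k ih =>
      have := hF2 (S k)
      rw [hS]
      omega
  have hmono : ∀ j k, j ≤ k → (S j).2 ≤ (S k).2 := by
    intro j k hjk
    induction k, hjk using Nat.le_induction with
    | base => exact le_refl _
    | succ k _ ih =>
      have := hF2 (S k)
      rw [hS]
      omega
  have hag : ∀ j k, j ≤ k → ∀ i < (S j).2, (S k).1.1 i = (S j).1.1 i := by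
    intro j k hjk
    induction k, hjk using Nat.le_induction with
    | base => exact fun _ _ => rfl
    | succ k hjk ih =>
      intro i hi
      rw [hS, hF1 (S k) i (lt_of_lt_of_le hi (hmono j k hjk))]
      exact ih i hi
  let V : ℕ → Bool := fun i => (S (i + 1)).1.1 i
  have hV : ∀ k, ∀ i < (S k).2, V i = (S k).1.1 i := by
    intro k i hi
    show (S (i + 1)).1.1 i = (S k).1.1 i
    rcases le_total k (i + 1) with h | h
    · exact hag k (i + 1) h i hi
    · exact (hag (i + 1) k h i (lt_of_lt_of_le (Nat.lt_succ_self i) (hk (i + 1)))).symm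
  have hVC : ∀ n, ¬ Bad (pre V n) := by
    intro n
    rw [pre_congr fun i hi => hV n i (lt_of_lt_of_le hi (hk n))]
    exact (S n).1.2 n
  have hf := hfin V W0 hVC hW0
  obtain ⟨N, hN⟩ := hf.bddAbove
  obtain ⟨x, hx1, hx2, hx3⟩ := hF3 (S (a * N + a))
  have h1 : A a m V x ≠ A a m W0 x := by
    rw [A_congr (hV (a * N + a + 1)) hx2]
    exact hx3
  have h2 : x ≤ N := hN h1
  have h3 := hk (a * N + a)
  have h4 : a * x ≤ a * N := Nat.mul_le_mul_left a h2
  omega

/-- step 2, compactness -/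
theorem compact {Bad : List Bool → Prop} (a : ℕ) (m : List Bool → Bool) (W : ℕ → Bool) (n : ℕ)
    (hW : ∀ n, ¬ Bad (pre W n))
    (hiso : ∀ W' : ℕ → Bool, (∀ n, ¬ Bad (pre W' n)) → (∀ i < n, W' i = W i) →
        ∀ x, A a m W' x = A a m W x) (x : ℕ) (b : Bool) :
    A a m W x = b ↔ ∃ s : ℕ, ∀ c < 2 ^ (n + a * x + a + s), pre (B c) n ≠ pre W n ∨
      (∃ i, i < n + a * x + a + s + 1 ∧ Bad (pre (B c) i)) ∨ A a m (B c) x = b := by
  constructor
  · intro hb
    by_contra hcon
    push Not at hcon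
    choose c hc1 hc2 hc3 hc4 using hcon
    have hlim : ∀ i, ∃ v : Bool, ∀ᶠ s in (Filter.hyperfilter ℕ : Filter ℕ), B (c s) i = v := by
      intro i
      by_cases h : ∀ᶠ s in (Filter.hyperfilter ℕ : Filter ℕ), B (c s) i = true
      · exact ⟨true, h⟩
      · refine ⟨false, ?_⟩
        filter_upwards [Ultrafilter.eventually_not.2 h] with s hs
        exact Bool.eq_false_iff.2 hs
    choose V hV using hlim
    have hVj : ∀ j, ∀ᶠ s in (Filter.hyperfilter ℕ : Filter ℕ), ∀ i < j, B (c s) i = V i := by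
      intro j
      induction j with
      | zero => exact Filter.Eventually.of_forall fun s i hi => absurd hi (Nat.not_lt_zero i)
      | succ j ih =>
        filter_upwards [ih, hV j] with s h1 h2 i hi
        rcases Nat.lt_succ_iff_lt_or_eq.1 hi with h | h
        · exact h1 i h
        · rw [h]
          exact h2
    have hlarge : ∀ j : ℕ, ∀ᶠ s in (Filter.hyperfilter ℕ : Filter ℕ), j ≤ s := by
      intro j
      have h1 : ∀ᶠ s in Filter.cofinite, j ≤ s := by
        rw [Nat.cofinite_eq_atTop]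
        exact Filter.eventually_ge_atTop j
      exact Filter.hyperfilter_le_cofinite h1
    have hVC : ∀ j, ¬ Bad (pre V j) := by
      intro j
      obtain ⟨s, h1, h2⟩ := ((hVj j).and (hlarge j)).exists
      rw [← pre_congr h1]
      exact hc3 s j (by omega)
    have hVn : ∀ i < n, V i = W i := by
      obtain ⟨s, h1⟩ := (hVj n).exists
      intro i hi
      rw [← h1 i hi]
      exact eq_of_pre (hc2 s) i hi
    obtain ⟨s, h1⟩ := (hVj (a * x + a)).exists
    apply hc4 s
    rw [A_congr h1 (by omega), hiso V hVC hVn x]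
    exact hb
  · rintro ⟨s, hs⟩
    obtain ⟨c, hc, hcW⟩ := B_ex (n + a * x + a + s) W
    rcases hs c hc with h | h | h
    · exact absurd (pre_congr fun i hi => hcW i (by omega)) h
    · obtain ⟨i, hi, hbad⟩ := h
      rw [pre_congr (W' := W) fun i' hi' => hcW i' (by omega)] at hbad
      exact absurd hbad (hW i)
    · rw [← h]
      exact (A_congr hcW (by omega)).symm

theorem isolate {Bad : List Bool → Prop} (hBad : REPred Bad) (a : ℕ) {m : List Bool → Bool}
    (hm : Computable m) (hne : ∃ W : ℕ → Bool, ∀ n, ¬ Bad (pre W n))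
    (hfin : ∀ W W' : ℕ → Bool, (∀ n, ¬ Bad (pre W n)) → (∀ n, ¬ Bad (pre W' n)) →
      {x | A a m W x ≠ A a m W' x}.Finite) :
    ∃ W : ℕ → Bool, (∀ n, ¬ Bad (pre W n)) ∧ Computable (A a m W) := by
  obtain ⟨W, n, hW, hiso⟩ := isolated a m hne hfin
  refine ⟨W, hW, ?_⟩
  have hA : Computable₂ fun c x : ℕ => A a m (B c) x := by
    have h3 : Primrec₂ fun (p : ℕ × ℕ) (j : ℕ) => a * p.2 + j :=
      Primrec.nat_add.comp (Primrec.nat_mul.comp (Primrec.const a)
        (Primrec.snd.comp Primrec.fst)) Primrec.snd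
    have h4 : Primrec fun p : ℕ × ℕ => vec a (B p.1) p.2 := by
      unfold vec
      exact Primrec.list_map (Primrec.const (List.range a))
        (B_prim.comp (Primrec.fst.comp Primrec.fst) h3)
    exact hm.comp h4.to_comp
  have hre : REPred fun p : ℕ × Bool => A a m W p.1 = p.2 := by
    have h1 : REPred fun p : ℕ × Bool => ∃ s : ℕ, ∀ c < 2 ^ (n + a * p.1 + a + s),
        pre (B c) n ≠ pre W n ∨ (∃ i, i < n + a * p.1 + a + s + 1 ∧ Bad (pre (B c) i)) ∨
          A a m (B c) p.1 = p.2 := by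
      refine Helper446.RE.exN (p := fun (p : ℕ × Bool) s => ∀ c < 2 ^ (n + a * p.1 + a + s),
        pre (B c) n ≠ pre W n ∨ (∃ i, i < n + a * p.1 + a + s + 1 ∧ Bad (pre (B c) i)) ∨
          A a m (B c) p.1 = p.2) ?_
      have hT : Primrec fun y : (ℕ × Bool) × ℕ => n + a * y.1.1 + a + y.2 :=
        Primrec.nat_add.comp (Primrec.nat_add.comp (Primrec.nat_add.comp (Primrec.const n)
          (Primrec.nat_mul.comp (Primrec.const a) (Primrec.fst.comp Primrec.fst)))
          (Primrec.const a)) Primrec.snd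
      refine Helper446.RE.all_lt (p := fun (y : (ℕ × Bool) × ℕ) c =>
        pre (B c) n ≠ pre W n ∨ (∃ i, i < n + a * y.1.1 + a + y.2 + 1 ∧ Bad (pre (B c) i)) ∨
          A a m (B c) y.1.1 = y.1.2) ?_ (f := fun y => 2 ^ (n + a * y.1.1 + a + y.2))
        (pow_prim.comp hT).to_comp
      refine Helper446.RE.or (Helper446.RE.ne
        (pre_prim.comp Primrec.snd (Primrec.const n)).to_comp (Computable.const _)) ?_
      refine Helper446.RE.or ?_ (Helper446.RE.eq (hA.comp Computable.snd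
        (Primrec.fst.comp (Primrec.fst.comp Primrec.fst)).to_comp)
        (Primrec.snd.comp (Primrec.fst.comp Primrec.fst)).to_comp)
      refine Helper446.RE.exN (p := fun (y : ((ℕ × Bool) × ℕ) × ℕ) i =>
        i < n + a * y.1.1.1 + a + y.1.2 + 1 ∧ Bad (pre (B y.2) i)) ?_
      refine Helper446.RE.and (Helper446.RE.lt Computable.snd
        (Primrec.succ.comp (hT.comp (Primrec.fst.comp Primrec.fst))).to_comp) ?_
      exact Helper446.RE.comp hBad
        (pre_prim.comp (Primrec.snd.comp Primrec.fst) Primrec.snd).to_comp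
    refine h1.of_eq fun p => ?_
    exact (compact a m W n hW hiso p.1 p.2).symm
  exact Helper446.RE.computable_of_graph (f := A a m W) hre

end Pool.Agent.Y579.NG
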