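import Pool.Agent.Y579.NG.App

/-!
Two refutable problems.
-/

namespace Pool.Agent.Y579.NG

open Pool.Agent.Y579.NL (zer computable_join)
open Pool.Agent.Results.MP_743c94_lc.Full Encodable

/-- All-or-co-unique choice on `k` points: at most one point `i < k` is forbidden, by bits `true`
at positions `k * n + i`. The answer `i` is given as the characteristic function of `{i}`. -/
def ACC (k : ℕ) : Problem where
  dom := {r | ∀ i < k, ∀ i' < k, ∀ n n', r (k * n + i) = true → r (k * n' + i') = true → i = i'}
  sol := fun r => {q | ∃ i < k, q = (fun n => decide (n = i)) ∧ ∀ n, r (k * n + i) = false}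

/-- The instance `z` of `P` is refutable: every solution of `z` is refuted, on the first `N`
bits, by computable instances of `P` arbitrarily close to `z`. -/
def Refutable (P : Problem) (z : ℕ → Bool) (N : ℕ) : Prop :=
  z ∈ P.dom ∧ Computable z ∧ ∀ q ∈ P.sol z, ∀ s : ℕ, ∃ z' ∈ P.dom, Computable z' ∧
    (∀ i < s, z' i = z i) ∧ ∀ r ∈ P.sol z', pre r N ≠ pre q N

/-- No problem `NON × P × P'` with refutable `P`, `P'` is reducible to Ramsey's theorem for pairs
and two colours. -/
theorem neg_two {P P' : Problem} {z z' : ℕ → Bool} {N N' : ℕ} (hP : Refutable P z N)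
    (hP' : Refutable P' z' N') : ¬ WeihrauchReducible (prod NON (prod P P')) RT22 := by
  obtain ⟨h1, h2, h3⟩ := hP
  obtain ⟨h1', h2', h3'⟩ := hP'
  have hpl : ∀ r q : ℕ → Bool, pre (left r) N ≠ pre (left q) N →
      pre r (2 * N + 2 * N') ≠ pre q (2 * N + 2 * N') := by
    intro r q h heq
    apply h
    refine List.ext_getElem? fun i => ?_
    by_cases hi : i < N
    · rw [pre_getElem? _ hi, pre_getElem? _ hi]
      have h1 : (pre r (2 * N + 2 * N'))[2 * i]? = (pre q (2 * N + 2 * N'))[2 * i]? := by
        rw [heq]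
      rw [pre_getElem? _ (by omega), pre_getElem? _ (by omega)] at h1
      exact h1
    · rw [List.getElem?_eq_none (by rw [pre_length]; omega),
        List.getElem?_eq_none (by rw [pre_length]; omega)]
  have hpr : ∀ r q : ℕ → Bool, pre (right r) N' ≠ pre (right q) N' →
      pre r (2 * N + 2 * N') ≠ pre q (2 * N + 2 * N') := by
    intro r q h heq
    apply h
    refine List.ext_getElem? fun i => ?_
    by_cases hi : i < N'
    · rw [pre_getElem? _ hi, pre_getElem? _ hi]
      have h1 : (pre r (2 * N + 2 * N'))[2 * i + 1]? =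
          (pre q (2 * N + 2 * N'))[2 * i + 1]? := by
        rw [heq]
      rw [pre_getElem? _ (by omega), pre_getElem? _ (by omega)] at h1
      exact h1
    · rw [List.getElem?_eq_none (by rw [pre_length]; omega),
        List.getElem?_eq_none (by rw [pre_length]; omega)]
  refine non_prod (P := prod P P') (z := join z z') (2 * N + 2 * N') ⟨?_, ?_⟩
    (computable_join h2 h2') ?_
  · rw [left_join]; exact h1
  · rw [right_join]; exact h1'
  · rintro q ⟨hq, -⟩ q' ⟨-, hq'⟩ s
    rw [left_join] at hq
    rw [right_join] at hq'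
    obtain ⟨w, w1, w2, w3, w4⟩ := h3 _ hq s
    obtain ⟨w', w1', w2', w3', w4'⟩ := h3' _ hq' s
    refine ⟨join w w', ⟨?_, ?_⟩, computable_join w2 w2', ?_, ?_⟩
    · rw [left_join]; exact w1
    · rw [right_join]; exact w1'
    · intro i hi
      unfold join
      by_cases h : i % 2 = 0
      · simp only [h, if_true]
        exact w3 _ (by omega)
      · simp only [h, if_false]
        exact w3' _ (by omega)
    · rintro r ⟨hr, hr'⟩
      rw [left_join] at hr
      rw [right_join] at hr'
      exact ⟨hpl _ _ (w4 _ hr), hpr _ _ (w4' _ hr')⟩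

theorem refutable_acc {k : ℕ} (hk : 2 ≤ k) : Refutable (ACC k) zer k := by
  refine ⟨fun i _ i' _ n n' h => ?_, Computable.const false, ?_⟩
  · simp [zer] at h
  · rintro q ⟨i, hi, rfl, -⟩ s
    refine ⟨fun m => decide (m = k * s + i), ?_, ?_, fun m hm => ?_, ?_⟩
    · intro a ha b hb n n' h h'
      simp only [decide_eq_true_eq] at h h'
      have e1 : (k * n + a) % k = a := by rw [Nat.mul_add_mod]; exact Nat.mod_eq_of_lt ha
      have e2 : (k * n' + b) % k = b := by rw [Nat.mul_add_mod]; exact Nat.mod_eq_of_lt hb
      rw [← e1, ← e2, h, h']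
    · exact (PrimrecRel.comp Primrec.eq Primrec.id (Primrec.const (k * s + i))).decide.to_comp
    · have h1 : s ≤ k * s := Nat.le_mul_of_pos_left s (by omega)
      have : ¬ m = k * s + i := by omega
      simp [this, zer]
    · rintro r ⟨t, ht, rfl, hr⟩ heq
      have h1 := hr s
      simp only [decide_eq_false_iff_not] at h1
      have hti : t ≠ i := fun h => h1 (by rw [h])
      have h2 : (pre (fun n => decide (n = t)) k)[i]? = (pre (fun n => decide (n = i)) k)[i]? := by
        rw [heq]
      rw [pre_getElem? _ hi, pre_getElem? _ hi] at h2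
      simp [Ne.symm hti] at h2

theorem neg_acc {k m : ℕ} (hk : 2 ≤ k) (hm : 2 ≤ m) :
    ¬ WeihrauchReducible (prod NON (prod (ACC k) (ACC m))) RT22 :=
  neg_two (refutable_acc hk) (refutable_acc hm)

end Pool.Agent.Y579.NG
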